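import Pool.Agent.Lib.H14Z.Cert

/-! # (T1) for every even `n ≥ 6` -/

namespace Pool.Agent.H25T

open Pool.Agent.H16T

/-- **(T1) for `n = 2k`, `k ≥ 3`.** -/
theorem t1_all (k : ℕ) (hk : 3 ≤ k) : T1Pos (2 * k) ((k : ℝ) * (k + 1)) :=
  Pool.Agent.H72CA.T1_of_certs Pool.Agent.H14Z.certA Pool.Agent.H14Z.certB k hk

end Pool.Agent.H25T
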