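import Pool.Agent.Lib.H25T.N2
import Pool.Agent.Lib.H16T.RC
import Pool.Agent.Lib.H25A.R7
import Pool.Agent.H39Alpha.UpperL2
import Pool.Agent.H39Alpha.LowerL2

/-! # The constant `α(ℓ₂ⁿ)` for every `n`, from (T1) for even `n ≥ 6` -/

namespace Pool.Agent.H25T

open Pool.Agent.H39Alpha Pool.Agent.H16T

universe v

/-- `α(ℓ₂^{2k}) = √(k(k+1))` for every `k ≥ 1`. -/
theorem alpha_even (hT : ∀ k : ℕ, 3 ≤ k → T1Pos (2 * k) ((k : ℝ) * (k + 1))) (k : ℕ)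
    (hk : 1 ≤ k) : alpha.{v} (EuclideanSpace ℂ (Fin (2 * k))) =
      ENNReal.ofReal (Real.sqrt ((k : ℝ) * (k + 1))) := by
  rcases Nat.lt_or_ge k 3 with h | h
  · interval_cases k
    · exact alpha_eq 1 t1_two
    · have h4 := Pool.Agent.H25A.alpha_four.{v}
      have e : (((2 : ℕ) : ℝ) * (((2 : ℕ) : ℝ) + 1)) = 6 := by norm_num
      rw [e]
      exact h4
  · exact alpha_eq k (hT k h)

/-- `α(ℓ₂ⁿ) = (n+1)/2` for odd `n`. -/
theorem alpha_odd (n : ℕ) (ho : Odd n) :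
    alpha.{v} (EuclideanSpace ℂ (Fin n)) = ENNReal.ofReal (((n : ℝ) + 1) / 2) := by
  obtain ⟨r, hr⟩ := ho
  refine le_antisymm (alpha_l2_le.{v} n) ?_
  have h := le_alpha_l2.{v} n r
  have h1 : ((r : ℝ) + 1) * ((n : ℝ) - r) = (((n : ℝ) + 1) / 2) ^ 2 := by
    rw [hr]; push_cast; ring
  rwa [h1, Real.sqrt_sq (by positivity)] at h

/-- The value for every `n ≥ 1`. -/
theorem alpha_all (hT : ∀ k : ℕ, 3 ≤ k → T1Pos (2 * k) ((k : ℝ) * (k + 1))) (n : ℕ)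
    (hn : 1 ≤ n) : alpha.{v} (EuclideanSpace ℂ (Fin n)) =
      ENNReal.ofReal (if Odd n then ((n : ℝ) + 1) / 2 else Real.sqrt (n * (n + 2)) / 2) := by
  split_ifs with ho
  · exact alpha_odd n ho
  · obtain ⟨k, hk⟩ := Nat.not_odd_iff_even.1 ho
    have hk2 : n = 2 * k := by omega
    subst hk2
    rw [alpha_even hT k (by omega)]
    congr 1
    have h1 : (((2 * k : ℕ) : ℝ) * (((2 * k : ℕ) : ℝ) + 2)) = (k : ℝ) * (k + 1) * 2 ^ 2 := by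
      push_cast; ring
    have h2 : Real.sqrt ((k : ℝ) * (k + 1) * 2 ^ 2) = Real.sqrt ((k : ℝ) * (k + 1)) * 2 := by
      rw [Real.sqrt_mul (by positivity), Real.sqrt_sq (by norm_num : (0 : ℝ) ≤ 2)]
    rw [h1, h2]
    ring

/-- `α(ℓ₂ⁿ) < n/√2` for `n ≥ 3`. -/
theorem alpha_lt (n : ℕ) (h3 : 3 ≤ n) :
    alpha.{v} (EuclideanSpace ℂ (Fin n)) < ENNReal.ofReal ((n : ℝ) / Real.sqrt 2) := by
  refine lt_of_le_of_lt (alpha_l2_le.{v} n) ?_
  have h3' : (3 : ℝ) ≤ n := by exact_mod_cast h3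
  rw [ENNReal.ofReal_lt_ofReal_iff (by positivity)]
  have hs : Real.sqrt 2 < 3 / 2 := by
    rw [Real.sqrt_lt' (by norm_num)]; norm_num
  rw [lt_div_iff₀ (by positivity)]
  nlinarith [Real.sqrt_nonneg 2]

end Pool.Agent.H25T
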