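import Pool.Agent.Lib.H75C.C2

/-! # (T1) for `n = 2` -/

namespace Pool.Agent.H25T

open Matrix Pool.Agent.H25A Pool.Agent.H54J Pool.Agent.H16T
open scoped ComplexOrder

variable {ι κ : Type*} [Fintype ι] [DecidableEq ι] [Fintype κ] [DecidableEq κ]

/-- The chain inequality for two effects: there is no intermediate measurement. -/
theorem chain_two {X : Matrix ι ι ℂ} (hX : X.PosDef) (k : ℤ) (E : Fin 2 → Matrix ι ι ℂ)
    (hE0 : ∀ l, (E l).PosSemidef) (hE1 : ∀ l, (1 - E l).PosSemidef) :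
    (2 * k + 1) * rtr (X * X * ∑ l, E l) - rtr (X * (∑ l, E l) * X * ∑ l, E l) -
        (k : ℝ) * (k + 1) * rtr (X * X) ≤ ∑ l, nuE X (E l) := by
  obtain ⟨S, -, hSX, hSpd⟩ := exists_sqrt hX.posSemidef
  have hS : S.PosDef := hSpd hX
  have hXh : X.IsHermitian := hX.isHermitian
  choose N hN hI using fun l => exists_canInst hS hSX (hE0 l) (hE1 l)
  have hg : ∀ l, gG X (N l) = S * E l * S := fun l => canInst_gG hS hSX (hN l)
  have hsum : ([N 0, N 1].map (gG X)).sum = S * (∑ l, E l) * S := by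
    simp only [List.map_cons, List.map_nil, List.sum_cons, List.sum_nil, add_zero, hg,
      Fin.sum_univ_two, Matrix.mul_add, Matrix.add_mul]
  have h1 := chain_fF hX.posSemidef k (L := [N 0, N 1]) (by
    intro a ha
    simp only [List.mem_cons, List.not_mem_nil, or_false] at ha
    rcases ha with rfl | rfl
    · exact hI 0
    · exact hI 1) hsum
  have hF : fF X [N 0, N 1] = 0 := by
    simp [fF, msum, theta, rtr]
  have e1 : ∀ F : Matrix ι ι ℂ, rtr (X * (S * F * S)) = rtr (X * X * F) := by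
    intro F
    have h := rtr_mul_comm (X * S * F) S
    have h' : X * (S * F * S) = X * S * F * S := by simp only [Matrix.mul_assoc]
    have h'' : S * (X * S * F) = X * X * F := by
      rw [← hSX]
      simp only [Matrix.mul_assoc]
    rw [h', h, h'']
  have e2 : ∀ F : Matrix ι ι ℂ, rtr (S * F * S * (S * F * S)) = rtr (X * F * X * F) := by
    intro F
    have h' : S * F * S * (S * F * S) = S * F * X * F * S := by
      rw [← hSX]
      simp only [Matrix.mul_assoc]
    have h'' : S * (S * F * X * F) = X * F * X * F := by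
      rw [← hSX]
      simp only [Matrix.mul_assoc]
    rw [h', rtr_mul_comm, h'']
  rw [hF, e1, e2, add_zero] at h1
  refine h1.trans (le_of_eq ?_)
  simp only [List.map_cons, List.map_nil, List.sum_cons, List.sum_nil, add_zero, hg, e1, e2,
    Fin.sum_univ_two]
  rfl

/-- **(T1) for `n = 2`.** -/
theorem t1_two : T1Pos 2 (((1 : ℕ) : ℝ) * (((1 : ℕ) : ℝ) + 1)) := by
  intro ι _ _ C hC X hX
  obtain ⟨δ⟩ := (inferInstance : Nonempty (H92U.Design 2 4))
  have hCR : ConR C := hC
  have h1 := Av_nu δ le_rfl C X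
  have h2 : ∀ U : H92U.UG 2, (2 * (1 : ℝ) + 1) * rtr (X * X * ∑ j, (C j)ᴴ * C j) -
      rtr (X * (∑ j, (C j)ᴴ * C j) * X * ∑ j, (C j)ᴴ * C j) - (1 : ℝ) * (1 + 1) * rtr (X * X) ≤
      ∑ l, nuE X (frE C U l) := by
    intro U
    have h := chain_two hX 1 (frE C U) (frE_psd C U) (frE_le C hCR U)
    rw [sum_frE] at h
    push_cast at h
    exact h
  have h3 := H92U.Av_mono δ h2
  rw [H92U.Av_const] at h3
  have h4 : (0 : ℝ) ≤ H92U.Av δ (fun U => ∑ l, nuE X (frE C U l)) := by
    have h5 : ∀ U : H92U.UG 2, (0 : ℝ) ≤ ∑ l, nuE X (frE C U l) := by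
      intro U
      refine Finset.sum_nonneg fun l _ => ?_
      exact H75C.nuE_nonneg hX.isHermitian (frE_psd C U l) (frE_le C hCR U l)
    have h6 := H92U.Av_mono δ h5
    rwa [H92U.Av_const] at h6
  have h7 : rtr ((∑ k, C k * X * (C k)ᴴ) * (∑ k, C k * X * (C k)ᴴ)) = rtr (phi C X * phi C X) :=
    rfl
  rw [h7]
  push_cast at h1 ⊢
  linarith

end Pool.Agent.H25T
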